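import Mathlib
import Pool.Agent.Work.MP_02e323_helper2.Curve

/-!
# MP_02e323_co: iterated images of digital curves under central morphisms

For a central word `m` let `β_m` be the morphism `0 ↦ m01`, `1 ↦ m10`; for the empty word `m` this is
the Thue-Morse morphism.  Let `w = β_{m₁}(β_{m₂}(⋯ β_{m_K}(v) ⋯))`, where the number of ones in the
prefixes of `v` stays within distance less than `1/2` of a real polynomial of degree at most `s`.
If `t ≥ 2K + 3` and `t ≥ K + s + 2` then `w` and all its factors are determined by their full
`t`-spectra, whatever their lengths.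
-/

set_option autoImplicit false

namespace Pool.Agent.Results.MP_02e323_co.CentralMorphisms

/-- `occ u w` is the number `|w|_u` of occurrences of `u` as a scattered subword of `w`: the number
of strictly increasing index maps along which `w` reads `u`. -/
noncomputable def occ {α : Type} (u w : List α) : ℕ :=
  {f : Fin u.length → Fin w.length | StrictMono f ∧ ∀ i, w.get (f i) = u.get i}.ncard

/-- `w` is the only word (of any length) with its full `t`-spectrum. -/
def Determined {α : Type} (t : ℕ) (w : List α) : Prop :=
  ∀ w' : List α, (∀ u : List α, u.length ≤ t → occ u w' = occ u w) → w' = w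

/-- Central words.  The letters `false`, `true` stand for `0`, `1`.  With `q = |m| + 2` and
`p = |m|_1 + 1` the condition is `|s|_1 < (|s| + 1) p / q < |s|_1 + 1` for all suffixes `s` of `m`
(the empty word and `m` included). -/
def Central (m : List Bool) : Prop :=
  ∀ s, s <:+ m →
    s.count true * (m.length + 2) < (s.length + 1) * (m.count true + 1) ∧
    (s.length + 1) * (m.count true + 1) < (s.count true + 1) * (m.length + 2)

/-- The morphism `β_m`: `0 ↦ m01`, `1 ↦ m10`. -/
def beta (m : List Bool) : List Bool → List Bool
  | [] => []
  | c :: v => m ++ c :: (!c) :: beta m v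

/-- `iter [m₁, …, m_K] v = β_{m₁}(β_{m₂}(⋯ β_{m_K}(v) ⋯))`. -/
def iter : List (List Bool) → List Bool → List Bool
  | [], v => v
  | m :: ms, v => beta m (iter ms v)

/-- The letters `1` of `v` follow a polynomial of degree at most `s` up to less than `1/2`:
`|#(ones among the first i letters) - P(i)| < 1/2` for `0 < i < |v|`. -/
def DigitalCurve (s : ℕ) (v : List Bool) : Prop :=
  ∃ P : Polynomial ℝ, P.natDegree ≤ s ∧
    ∀ i, 0 < i → i < v.length → |((v.take i).count true : ℝ) - P.eval (i : ℝ)| < 1 / 2

theorem result (ms : List (List Bool)) (hms : ∀ m ∈ ms, Central m) (s t : ℕ) (v : List Bool)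
    (hv : DigitalCurve s v) (ht1 : 2 * ms.length + 3 ≤ t) (ht2 : ms.length + s + 2 ≤ t)
    (x : List Bool) (hx : x <:+: iter ms v) : Determined t x := by
  intro x' h
  obtain ⟨P, hP, hv⟩ := hv
  have hb : ∀ m u, beta m u = Work.MP_02e323_helper2.beta m u := by
    intro m u
    induction u with
    | nil => rfl
    | cons c u ih =>
      show m ++ c :: (!c) :: beta m u = m ++ c :: (!c) :: Work.MP_02e323_helper2.beta m u
      rw [ih]
  have hi : ∀ l : List (List Bool), iter l v = Work.MP_02e323_helper2.build l v := by
    intro l
    induction l with
    | nil => rfl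
    | cons m l ih =>
      show beta m (iter l v) = Work.MP_02e323_helper2.beta m (Work.MP_02e323_helper2.build l v)
      rw [ih, hb]
  rw [hi] at hx
  exact (Work.MP_02e323_helper2.determined_build hms ht1 ht2 P hP hv hx
    (Work.MP_02e323_helper2.sameP_of_occ (fun u hu => (h u hu).symm))).symm

end Pool.Agent.Results.MP_02e323_co.CentralMorphisms
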