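import Mathlib
import Pool.Agent.Work.MP_02e323_helper2.Cpx
import Pool.Agent.Work.MP_02e323_helper2.Lower

/-!
# MP_02e323_co: the factor complexity threshold for reconstruction from subword counts

For every `t ≥ 12m - 4`, the largest `k` such that all words with at most `k` different factors of
length `m` are determined by their full `t`-spectrum is `k = m`.
-/

set_option autoImplicit false

namespace Pool.Agent.Results.MP_02e323_co.FactorComplexity

/-- `occ u w` is the number `|w|_u` of occurrences of `u` as a scattered subword of `w`: the number
of strictly increasing index maps along which `w` reads `u`. -/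
noncomputable def occ {α : Type} (u w : List α) : ℕ :=
  {f : Fin u.length → Fin w.length | StrictMono f ∧ ∀ i, w.get (f i) = u.get i}.ncard

/-- `w` is the only word (of any length) with its full `t`-spectrum. -/
def Determined {α : Type} (t : ℕ) (w : List α) : Prop :=
  ∀ w' : List α, (∀ u : List α, u.length ≤ t → occ u w' = occ u w) → w' = w

/-- The number of different factors (contiguous subwords) of length `m` of `w`. -/
noncomputable def cpx {α : Type} (m : ℕ) (w : List α) : ℕ :=
  {u : List α | u.length = m ∧ u <:+: w}.ncard

/-- For `t ≥ 12m - 4`: all words with at most `k` different factors of length `m`, over all finite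
alphabets, are determined by their full `t`-spectrum if and only if `k ≤ m`. -/
theorem result (m k t : ℕ) (hm : 1 ≤ m) (ht : 12 * m - 4 ≤ t) :
    (∀ (α : Type) [Fintype α] (w : List α), cpx m w ≤ k → Determined t w) ↔ k ≤ m := by
  constructor
  · intro h
    by_contra hk
    obtain ⟨w, w', h1, h2, h3⟩ := Work.MP_02e323_helper2.exists_undetermined m t
    have h4 : cpx m w ≤ m + 1 := h3
    exact h1 (h Bool w (by omega) w' h2)
  · intro hk α _ w hc w' h
    exact (Work.MP_02e323_helper2.determined_of_cpx hm (le_trans hc hk) ht
      (Work.MP_02e323_helper2.sameP_of_occ (fun u hu => (h u hu).symm))).symm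

end Pool.Agent.Results.MP_02e323_co.FactorComplexity
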