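import Mathlib
import Pool.Agent.Work.MP_02e323_helper33.Conv

/-!
# MP_02e323_co: a typical word of length `n` needs subword counts of length of order `log n`

Let `q` be the number of letters and `M ≠ 1` (the case `M = 0` is that of the integer counts).

* (random words) a random word of length `n` whose blocks of `D` consecutive letters have
  conditional probability at most `ε` given the letters after them is determined by its subword
  counts modulo `M` for subwords of length at most `t`, up to a probability `C(n - D, 2) * ε`, as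
  soon as `2 * D + 1 ≤ t`;
* (near every word) this holds for the words which agree with a given word at all positions that
  are not divisible by `r`; for `r = 1` these are all words of length `n`;
* (converse) at most `(n + 1) ^ (2 * t * q ^ t)` words of length `n` are determined.

So the `t` needed by almost all words of length `n` is of exact order `log n`.
-/

set_option autoImplicit false

open Finset

namespace Pool.Agent.Results.MP_02e323_co.TypicalWords

/-- `occ u w` is the number `|w|_u` of occurrences of `u` as a scattered subword of `w`: the number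
of strictly increasing index maps along which `w` reads `u`. -/
noncomputable def occ {α : Type} (u w : List α) : ℕ :=
  {f : Fin u.length → Fin w.length | StrictMono f ∧ ∀ i, w.get (f i) = u.get i}.ncard

/-- `w` is the only word of its length whose numbers `|w|_u`, for all words `u` of length at most
`t`, are congruent to those of `w` modulo `M`.  For `M = 0` this asks for equal numbers. -/
def Determined {α : Type} (M t : ℕ) (w : List α) : Prop :=
  ∀ w' : List α, w'.length = w.length →
    (∀ u : List α, u.length ≤ t → occ u w' ≡ occ u w [MOD M]) → w' = w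

open Classical in
/-- The total weight, for the weights `p`, of the words `w` of length `n` with the property `E`. -/
noncomputable def mass {α : Type} [Fintype α] {n : ℕ} (p : (Fin n → α) → ℝ) (E : List α → Prop) :
    ℝ :=
  ∑ w : Fin n → α, if E (List.ofFn w) then p w else 0

lemma ncard_box {α : Type} [Fintype α] {n : ℕ} (W : Finset (Fin n → α)) (P Q : (Fin n → α) → Prop)
    (hW : ∀ w, w ∈ W ↔ P w) (E : List α → Prop) (hQ : ∀ w, Q w ↔ E (List.ofFn w)) :
    {w : Fin n → α | P w ∧ Q w}.ncard = Work.MP_02e323_helper33.cE W E := by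
  classical
  have h : {w : Fin n → α | P w ∧ Q w} = (W.filter (fun w => E (List.ofFn w)) : Finset _) := by
    ext w
    simp [hW, hQ]
  rw [h, Set.ncard_coe_finset]
  unfold Work.MP_02e323_helper33.cE
  congr

lemma cE_zero {α : Type} {n : ℕ} (W : Finset (Fin n → α)) (E : List α → Prop)
    (h : ∀ w ∈ W, ¬ E (List.ofFn w)) : Work.MP_02e323_helper33.cE W E = 0 := by
  classical
  unfold Work.MP_02e323_helper33.cE
  rw [Finset.card_eq_zero, Finset.filter_eq_empty_iff]
  exact fun w hw => h w hw

lemma box {α : Type} [Fintype α] (M t n : ℕ) (hM : M ≠ 1) (w₀ : Fin n → α)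
    (r s : ℕ) (hr : 1 ≤ r) (hrs : 2 * (r * s) + 1 ≤ t) :
    {w : Fin n → α | (∀ i : Fin n, ¬ r ∣ (i : ℕ) → w i = w₀ i) ∧
      ¬ Determined M t (List.ofFn w)}.ncard * Fintype.card α ^ s ≤
    (n - r * s).choose 2 * {w : Fin n → α | ∀ i : Fin n, ¬ r ∣ (i : ℕ) → w i = w₀ i}.ncard := by
  classical
  obtain ⟨W, hWdef⟩ : ∃ W : Finset (Fin n → α),
      W = univ.filter (fun w => ∀ i : Fin n, ¬ r ∣ (i : ℕ) → w i = w₀ i) := ⟨_, rfl⟩
  have hW : ∀ w, w ∈ W ↔ ∀ i : Fin n, ¬ r ∣ (i : ℕ) → w i = w₀ i := by
    intro w; rw [hWdef]; simp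
  have hne : W.Nonempty := ⟨w₀, (hW w₀).mpr (fun _ _ => rfl)⟩
  rw [ncard_box W _ _ hW (fun w => ¬ Determined M t w) (fun _ => Iff.rfl)]
  have h2 : {w : Fin n → α | ∀ i : Fin n, ¬ r ∣ (i : ℕ) → w i = w₀ i}.ncard = W.card := by
    have : {w : Fin n → α | ∀ i : Fin n, ¬ r ∣ (i : ℕ) → w i = w₀ i} = (W : Set (Fin n → α)) := by
      ext w
      simp [hW]
    rw [this, Set.ncard_coe_finset]
  rw [h2]
  rcases Nat.eq_zero_or_pos (Fintype.card α) with h0 | h0
  · -- the empty alphabet
    have hemp : IsEmpty α := Fintype.card_eq_zero_iff.mp h0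
    have hn : n = 0 := by
      by_contra hn
      exact hemp.elim (w₀ ⟨0, Nat.pos_of_ne_zero hn⟩)
    subst hn
    have hz : Work.MP_02e323_helper33.cE W (fun w => ¬ Determined M t w) = 0 := by
      apply cE_zero
      intro w _ hnot
      apply hnot
      intro w' hl _
      rw [List.length_ofFn] at hl
      rw [List.length_eq_zero_iff.mp hl]
      simp
    rw [hz]
    simp
  · exact Work.MP_02e323_helper33.box_count (M := M) (t := t) (s := s) W r hr
      (fun i hi w hw b => by
        rw [hW] at hw ⊢
        intro j hj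
        have hji : j ≠ i := by rintro rfl; exact hj hi
        rw [Function.update_of_ne hji]
        exact hw j hj) hM hrs hne h0

/-- **Main result.** Let `α` be a finite alphabet with `q` letters and `M ≠ 1`.

1. Let `2 * D + 1 ≤ t`.  If `p` is a probability on the words of length `n` such that, for all words
`y` of length `D` and `T` with `D + |T| < n`, the probability of the suffix `y ++ T` is at most `ε`
times that of the suffix `T`, then the words that are not determined by the numbers `|w|_u`,
`|u| ≤ t`, modulo `M` have probability at most `C(n - D, 2) * ε`.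
2. For every word `w₀` of length `n` and all `r ≥ 1` and `s` with `2 * r * s + 1 ≤ t`, among the
words `w` of length `n` which agree with `w₀` at all positions not divisible by `r` a proportion of
at most `C(n - r * s, 2) * q ^ (-s)` is not determined by the numbers `|w|_u`, `|u| ≤ t`, modulo
`M`.  In particular one of these words is determined if `C(n - r * s, 2) < q ^ s`.  For `r = 1`
these words are all words of length `n`.
3. If `q ≥ 2` and `t ≥ 1`, then at most `(n + 1) ^ (2 * t * q ^ t)` words of length `n` are
determined by the numbers `|w|_u`, `|u| ≤ t`. -/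
theorem result (α : Type) [Fintype α] (M t n : ℕ) (hM : M ≠ 1) :
    (∀ (D : ℕ), 2 * D + 1 ≤ t → ∀ (p : (Fin n → α) → ℝ) (ε : ℝ),
      (∀ w, 0 ≤ p w) → ∑ w, p w = 1 → 0 ≤ ε →
      (∀ y T : List α, y.length = D → D + T.length < n →
        mass p (fun w => y ++ T <:+ w) ≤ ε * mass p (fun w => T <:+ w)) →
      mass p (fun w => ¬ Determined M t w) ≤ (n - D).choose 2 * ε) ∧
    (∀ (w₀ : Fin n → α) (r s : ℕ), 1 ≤ r → 2 * (r * s) + 1 ≤ t →
      ({w : Fin n → α | (∀ i : Fin n, ¬ r ∣ (i : ℕ) → w i = w₀ i) ∧
          ¬ Determined M t (List.ofFn w)}.ncard * Fintype.card α ^ s ≤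
        (n - r * s).choose 2 *
          {w : Fin n → α | ∀ i : Fin n, ¬ r ∣ (i : ℕ) → w i = w₀ i}.ncard) ∧
      ((n - r * s).choose 2 < Fintype.card α ^ s →
        ∃ w : Fin n → α, (∀ i : Fin n, ¬ r ∣ (i : ℕ) → w i = w₀ i) ∧
          Determined M t (List.ofFn w))) ∧
    (2 ≤ Fintype.card α → 1 ≤ t →
      {w : Fin n → α | Determined 0 t (List.ofFn w)}.ncard ≤
        (n + 1) ^ (2 * t * Fintype.card α ^ t)) := by
  classical
  refine ⟨?_, ?_, ?_⟩
  · intro D hD p ε hp hp1 hε0 hε
    exact Work.MP_02e323_helper33.mass_not_determined hM hD p hp hp1 ε hε0 hε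
  · intro w₀ r s hr hrs
    have h := box M t n hM w₀ r s hr hrs
    refine ⟨h, fun hlt => ?_⟩
    by_contra hcon
    push Not at hcon
    have h1 : {w : Fin n → α | (∀ i : Fin n, ¬ r ∣ (i : ℕ) → w i = w₀ i) ∧
        ¬ Determined M t (List.ofFn w)} =
          {w : Fin n → α | ∀ i : Fin n, ¬ r ∣ (i : ℕ) → w i = w₀ i} := by
      ext w
      simp only [Set.mem_ofPred_eq]
      exact ⟨fun h => h.1, fun h => ⟨h, hcon w h⟩⟩
    rw [h1] at h
    have h2 : 0 < {w : Fin n → α | ∀ i : Fin n, ¬ r ∣ (i : ℕ) → w i = w₀ i}.ncard :=
      (Set.ncard_pos).mpr ⟨w₀, fun _ _ => rfl⟩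
    rw [mul_comm] at h
    exact absurd (Nat.le_of_mul_le_mul_right h h2) (by omega)
  · intro hα ht
    have h := Work.MP_02e323_helper33.few_determined (α := α) hα (n := n) ht
    refine le_trans (le_of_eq ?_) h
    symm
    rw [← Set.ncard_image_of_injective _ (List.ofFn_injective (α := α) (n := n))]
    congr 1
    ext w
    simp only [Set.mem_ofPred_eq, Set.mem_image]
    constructor
    · rintro ⟨h1, h2⟩
      subst h1
      exact ⟨w.get, by rw [List.ofFn_get]; exact h2, List.ofFn_get w⟩
    · rintro ⟨v, hv, rfl⟩
      exact ⟨by simp, hv⟩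

end Pool.Agent.Results.MP_02e323_co.TypicalWords
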