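import Mathlib
import Pool.Agent.Work.MP_02e323_xi.Main2
import Pool.Agent.Work.MP_02e323_rr.Expl
import Pool.Agent.Work.MP_02e323_rr.Fam
import Pool.Agent.Work.MP_02e323_rr.Few

/-!
# MP_02e323_co: `ξ(t) + 1 ≥ R(t) = 1 / sin² (π / (2 (t + 1)))`, and the exact values for words with
real runs

A word `w` with `|w| < R(t)`, or with at most `t` blocks of equal letters, is the only word with its
full `t`-spectrum.  The counts `|w|_u` extend to words whose runs have real lengths, and for these
both bounds are exact: there is a pair of words with `t + 1` runs and length `R(t)` with the same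
full `t`-spectrum, starting with runs of different letters of length `1`; it has the least length
among all such pairs whose first runs have length at least `1`, and the least number of runs.
-/

set_option autoImplicit false

namespace Pool.Agent.Results.MP_02e323_co.WorstCase

/-- `occ u w` is the number `|w|_u` of occurrences of `u` as a scattered subword of `w`: the number
of strictly increasing index maps along which `w` reads `u`. -/
noncomputable def occ {α : Type} (u w : List α) : ℕ :=
  {f : Fin u.length → Fin w.length | StrictMono f ∧ ∀ i, w.get (f i) = u.get i}.ncard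

/-- The words `w` and `w'` have the same full `t`-spectrum. -/
def SameSpectrum {α : Type} (t : ℕ) (w w' : List α) : Prop :=
  ∀ u : List α, u.length ≤ t → occ u w = occ u w'

/-- The two conditions on `x = ξ(t)`, for words over the alphabet `α`: words of length `x` with the
same full `t`-spectrum are equal, and two different words of length `x + 1` have the same full
`t`-spectrum. -/
def IsXi (α : Type) (t x : ℕ) : Prop :=
  (∀ w w' : List α, w.length = x → w'.length = x → SameSpectrum t w w' → w = w') ∧
    ∃ w w' : List α, w.length = x + 1 ∧ w'.length = x + 1 ∧ w ≠ w' ∧ SameSpectrum t w w'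

/-- The bound `R(t) = 1 / sin² (π / (2 (t + 1)))`. -/
noncomputable def R (t : ℕ) : ℝ := 1 / Real.sin (Real.pi / (2 * ((t : ℝ) + 1))) ^ 2

/-- The binomial coefficient `r (r - 1) ⋯ (r - m + 1) / m!` of a real number `r`. -/
noncomputable def gbin (r : ℝ) (m : ℕ) : ℝ :=
  (∏ i ∈ Finset.range m, (r - (i : ℝ))) / (m.factorial : ℝ)

/-- A word with real runs is the list of its runs, from left to right, each run being a letter and
a real length.  `rocc V u` is the number of occurrences of the word `u` in `V`: if the first run of
`V` is `(a, r)`, it is the sum over the decompositions `u = a ^ m v` of the binomial coefficient of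
`r` and `m` times the number of occurrences of `v` in the remaining runs. -/
noncomputable def rocc {α : Type} [DecidableEq α] : List (α × ℝ) → List α → ℝ
  | [], u => if u = [] then 1 else 0
  | (a, r) :: V, u => ∑ m ∈ Finset.range (u.length + 1),
      if u.take m = List.replicate m a then gbin r m * rocc V (u.drop m) else 0

/-- The number of maximal blocks of equal letters of a word. -/
def blocks {α : Type} [DecidableEq α] : List α → ℕ
  | b :: c :: w => (if b = c then 0 else 1) + blocks (c :: w)
  | [_] => 1
  | [] => 0

/-- The number of pairs of adjacent positions of a word exactly one of which carries the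
letter `a`. -/
def changes {α : Type} [DecidableEq α] (a : α) : List α → ℕ
  | b :: c :: w => (if (b = a ↔ c = a) then 0 else 1) + changes a (c :: w)
  | _ => 0

/-- The runs of `V` have positive lengths, and adjacent runs have different letters. -/
def IsRunWord (V : List (Bool × ℝ)) : Prop :=
  (∀ p ∈ V, 0 < p.2) ∧ V.IsChain (fun p q => p.1 ≠ q.1)

/-- The total length. -/
noncomputable def len (V : List (Bool × ℝ)) : ℝ := (V.map Prod.snd).sum

/-- `V` and `W` have the same numbers of occurrences of all words `u` with `|u| ≤ t`. -/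
def SameCounts (t : ℕ) (V W : List (Bool × ℝ)) : Prop :=
  ∀ u : List Bool, u.length ≤ t → rocc V u = rocc W u

/-- The first runs of `V` and `W` have different letters and have length at least `1`. -/
def FirstRuns (V W : List (Bool × ℝ)) : Prop :=
  ∃ p ∈ V.head?, ∃ q ∈ W.head?, p.1 ≠ q.1 ∧ 1 ≤ p.2 ∧ 1 ≤ q.2

/-- The word with `t + 1` alternating runs, starting with the letter `s`, whose `k`-th run,
`k = 0, …, t`, has the length `c * sin (φ + k π / (t + 1))`, where `c = a` for the letter `true` and
`c = b` for the letter `false`. -/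
noncomputable def sineWord (t : ℕ) (φ a b : ℝ) (s : Bool) : List (Bool × ℝ) :=
  (List.range (t + 1)).map fun k : ℕ => (Bool.xor s (decide (k % 2 = 1)),
    (if Bool.xor s (decide (k % 2 = 1)) = true then a else b) *
      Real.sin (φ + (k : ℝ) * (Real.pi / ((t : ℝ) + 1))))

lemma changes_eq {α : Type} [DecidableEq α] (a : α) : ∀ w : List α,
    changes a w = Work.MP_02e323_rr.chg a w
  | [] => rfl
  | [_] => rfl
  | b :: c :: w => by
    rw [Work.MP_02e323_rr.chg_cons, changes, changes_eq a (c :: w)]

lemma changes_lt_blocks {α : Type} [DecidableEq α] (a : α) : ∀ (w : List α) (b : α),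
    changes a (b :: w) + 1 ≤ blocks (b :: w)
  | [], b => by simp [changes, blocks]
  | c :: w, b => by
    have h := changes_lt_blocks a w c
    rw [changes, blocks]
    by_cases hbc : b = c
    · subst hbc
      simpa using h
    · rw [if_neg hbc]
      split_ifs <;> omega

lemma R_eq (t : ℕ) : R t = Work.MP_02e323_rr.RT (t + 1) := by
  rw [R, Work.MP_02e323_rr.RT]
  push_cast
  rfl

lemma rocc_eq {α : Type} [DecidableEq α] : ∀ (V : List (α × ℝ)) (u : List α),
    rocc V u = Work.MP_02e323_rr.rocc V u
  | [], _ => rfl
  | (a, r) :: V, u => by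
    rw [Work.MP_02e323_rr.rocc_cons, Work.MP_02e323_rr.st_eq_sum]
    simp only [rocc]
    apply Finset.sum_congr rfl
    intro m _
    rw [rocc_eq V]
    rfl

lemma sineWord_eq (t : ℕ) (φ a b : ℝ) (s : Bool) : sineWord t φ a b s =
    Work.MP_02e323_rr.fw (t + 1) (fun c => if c = true then a else b) φ s := by
  rw [sineWord, Work.MP_02e323_rr.fw]
  push_cast
  rfl

lemma sineWord_cw (t : ℕ) (ht : 1 ≤ t) (s : Bool) :
    sineWord t (Real.pi / (2 * ((t : ℝ) + 1))) (1 / Real.sin (Real.pi / (2 * ((t : ℝ) + 1))))
      (1 / Real.sin (Real.pi / (2 * ((t : ℝ) + 1)))) s =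
      Work.MP_02e323_rr.cw (t + 1) (t + 1) s := by
  rw [sineWord, Work.MP_02e323_rr.cw_eq' (by omega)]
  apply List.map_congr_left
  intro k _
  rw [Work.MP_02e323_rr.rl, ite_self]
  push_cast
  rw [show Real.pi / (2 * ((t : ℝ) + 1)) + (k : ℝ) * (Real.pi / ((t : ℝ) + 1)) =
    (2 * (k : ℝ) + 1) * (Real.pi / (2 * ((t : ℝ) + 1))) by field_simp; ring]
  rw [div_mul_eq_mul_div, one_mul]

/-- Let `t ≥ 1`.
(1) A word `w` over a finite alphabet with `|w| < R(t)` is the only word, of any length, with its
full `t`-spectrum.
(2) Hence `ξ(t) + 1 ≥ R(t)`.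
(3) `R(t) > 4 (t + 1)² / π²`, and the first values of `R`.
(4) A word over a finite alphabet with at most `t` maximal blocks of equal letters, or more
generally with at most `t - 1` changes of the indicator of each letter, is the only word, of any
length, with its full `t`-spectrum.
(5) Real runs.  The counts extend those of words.  For all real `φ`, `a`, `b`, the words
`sineWord t φ a b true` and `sineWord t (π / (t + 1) - φ) a b false` have the same counts of all
words of length at most `t`.  For `φ = π / (2 (t + 1))` and `a = b = 1 / sin φ` they have positive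
runs, total length `R(t)`, `t + 1` runs, and first runs of length at least `1`.  Conversely, if two
words `V`, `W` with positive real runs have the same counts of all words of length at most `t`, then
`V = W` if `V` has at most `t` runs, and they have the same length, at least `R(t)`, if their first
runs have different letters and have length at least `1`. -/
theorem result (α : Type) [Fintype α] [DecidableEq α] (t : ℕ) (ht : 1 ≤ t) :
    (∀ w w' : List α, (w.length : ℝ) < R t → SameSpectrum t w w' → w = w') ∧
    (∀ x : ℕ, IsXi α t x → R t ≤ (x : ℝ) + 1) ∧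
    (4 / Real.pi ^ 2 * ((t : ℝ) + 1) ^ 2 < R t ∧
      R 1 = 2 ∧ R 2 = 4 ∧ R 3 = 4 + 2 * Real.sqrt 2 ∧ R 4 = 6 + 2 * Real.sqrt 5) ∧
    (∀ w w' : List α, (blocks w ≤ t ∨ ∀ a : α, changes a w + 1 ≤ t) →
      SameSpectrum t w w' → w = w') ∧
    (∀ (l : List (α × ℕ)) (u : List α), rocc (l.map fun p => (p.1, (p.2 : ℝ))) u =
        occ u (l.flatMap fun p => List.replicate p.2 p.1)) ∧
    (∀ φ a b : ℝ, SameCounts t (sineWord t φ a b true)
      (sineWord t (Real.pi / ((t : ℝ) + 1) - φ) a b false)) ∧
    (∀ φ c : ℝ, φ = Real.pi / (2 * ((t : ℝ) + 1)) → c = 1 / Real.sin φ →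
      SameCounts t (sineWord t φ c c true) (sineWord t φ c c false) ∧
      FirstRuns (sineWord t φ c c true) (sineWord t φ c c false) ∧
      ∀ s : Bool, IsRunWord (sineWord t φ c c s) ∧ len (sineWord t φ c c s) = R t ∧
        (sineWord t φ c c s).length = t + 1) ∧
    ∀ V W : List (Bool × ℝ), IsRunWord V → IsRunWord W → SameCounts t V W →
      (V.length ≤ t → V = W) ∧ (FirstRuns V W → R t ≤ len V ∧ len V = len W) := by
  have hT : 2 ≤ t + 1 := by omega
  have key1 : ∀ w w' : List α, (w.length : ℝ) < R t → SameSpectrum t w w' → w = w' := by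
    intro w w' h hs
    rcases Nat.eq_zero_or_pos w.length with h0 | h0
    · have hl := Work.MP_02e323_xi.length_eq ht w w' hs
      rw [h0] at hl
      rw [List.length_eq_zero_iff.mp h0, List.length_eq_zero_iff.mp hl.symm]
    · rw [R_eq] at h
      obtain ⟨p, h1, h2⟩ := Work.MP_02e323_rr.exists_dom ht h0 h
      exact Work.MP_02e323_xi.det_of_not_moment ht h0
        (Work.MP_02e323_xi.not_moment h0 p h1 h2) w w' (le_refl _) hs
  refine ⟨key1, ?_, ⟨?_, ?_, ?_, ?_, ?_⟩, ?_, ?_, ?_, ?_, ?_⟩
  · rintro x ⟨_, w, w', h1, _, h3, h4⟩
    by_contra hc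
    push Not at hc
    apply h3
    apply key1 w w' _ h4
    rw [h1]
    push_cast
    exact hc
  · have := Work.MP_02e323_rr.RT_gt hT
    rw [R_eq]
    push_cast at this
    exact this
  · rw [R_eq]; exact Work.MP_02e323_rr.RT_two
  · rw [R_eq]; exact Work.MP_02e323_rr.RT_three
  · rw [R_eq]; exact Work.MP_02e323_rr.RT_four
  · rw [R_eq]; exact Work.MP_02e323_rr.RT_five
  · intro w w' h hs
    cases w with
    | nil =>
      have hl := Work.MP_02e323_xi.length_eq ht _ _ hs
      exact (List.length_eq_zero_iff.mp hl.symm).symm
    | cons b w =>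
      apply Work.MP_02e323_rr.few_det ht _ _ _ hs
      intro a
      rw [← changes_eq]
      rcases h with h | h
      · exact (changes_lt_blocks a w b).trans h
      · exact h a
  · intro l u
    rw [rocc_eq]
    exact Work.MP_02e323_rr.rocc_cast l u
  · intro φ a b u hu
    rw [rocc_eq, rocc_eq, sineWord_eq, sineWord_eq]
    have := Work.MP_02e323_rr.rocc_fw (T := t + 1) (by omega)
      (fun c => if c = true then a else b) φ u (by omega)
    push_cast at this
    exact this
  · rintro φ c rfl rfl
    have h1 : Work.MP_02e323_rr.xs (t + 1) (t + 1) - Work.MP_02e323_rr.xs (t + 1) t = 1 := by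
      rw [Work.MP_02e323_rr.xs_top hT, Work.MP_02e323_rr.xs_pred hT t rfl]
      ring
    refine ⟨?_, ?_, ?_⟩
    · intro u hu
      rw [sineWord_cw t ht, sineWord_cw t ht, rocc_eq, rocc_eq]
      exact Work.MP_02e323_rr.rocc_cw (t + 1) u (by omega)
    · rw [sineWord_cw t ht, sineWord_cw t ht]
      refine ⟨(true, Work.MP_02e323_rr.xs (t + 1) (t + 1) - Work.MP_02e323_rr.xs (t + 1) t), ?_,
        (false, Work.MP_02e323_rr.xs (t + 1) (t + 1) - Work.MP_02e323_rr.xs (t + 1) t), ?_,
        by simp, h1.ge, h1.ge⟩
      · rw [Work.MP_02e323_rr.cw_succ]; simp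
      · rw [Work.MP_02e323_rr.cw_succ]; simp
    · intro s
      refine ⟨?_, ?_, by rw [sineWord, List.length_map, List.length_range]⟩
      · rw [sineWord_cw t ht]
        exact ⟨Work.MP_02e323_rr.cw_pos hT _ _ le_rfl, Work.MP_02e323_rr.cw_chain _ _ _⟩
      · rw [sineWord_cw t ht, R_eq]
        exact Work.MP_02e323_rr.len_cw_top hT _
  · rintro V W ⟨hV, hVc⟩ ⟨hW, hWc⟩ h
    have h' : ∀ u : List Bool, u.length ≤ t →
        Work.MP_02e323_rr.rocc V u = Work.MP_02e323_rr.rocc W u := by
      intro u hu
      rw [← rocc_eq, ← rocc_eq]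
      exact h u hu
    refine ⟨?_, ?_⟩
    · intro hVt
      exact Work.MP_02e323_rr.few_real ht _ V W le_rfl hVt hV hW hVc hWc h'
    · rintro ⟨⟨a, r⟩, hp, ⟨b, s⟩, hq, hab, hr, hs⟩
      refine ⟨?_, Work.MP_02e323_rr.len_eq_of_rocc ht h'⟩
      rw [R_eq]
      cases V with
      | nil => simp at hp
      | cons p V =>
        cases W with
        | nil => simp at hq
        | cons q W =>
          simp only [List.head?_cons, Option.mem_def, Option.some.injEq] at hp hq
          subst hp hq
          exact Work.MP_02e323_rr.run_lower ht (fun p hp => (hV p hp).le)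
            (fun p hp => (hW p hp).le) hab hr hs h'

end Pool.Agent.Results.MP_02e323_co.WorstCase
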